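import Mathlib

set_option autoImplicit false

open MeasureTheory Filter Topology

namespace Pool.Agent.MP_9eaa6a_an

/-- The torus `ℝ² / ℤ²`; its `volume` is the Lebesgue (Haar) probability measure. -/
abbrev Torus : Type := UnitAddCircle × UnitAddCircle

/-- The covering map from the plane to the torus. -/
def proj (p : ℝ × ℝ) : Torus := ((p.1 : UnitAddCircle), (p.2 : UnitAddCircle))

/-- The Euclidean length of a vector of the plane. -/
noncomputable def euclid (v : ℝ × ℝ) : ℝ := Real.sqrt (v.1 ^ 2 + v.2 ^ 2)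

/-- The Euclidean operator norm. -/
noncomputable def opNorm (A : ℝ × ℝ →L[ℝ] ℝ × ℝ) : ℝ :=
  sSup ((fun v => euclid (A v)) '' {v | euclid v = 1})

/-- The Euclidean conorm. -/
noncomputable def coNorm (A : ℝ × ℝ →L[ℝ] ℝ × ℝ) : ℝ :=
  sInf ((fun v => euclid (A v)) '' {v | euclid v = 1})

/-- `f` is a non-invertible, area preserving, smooth local diffeomorphism of the torus and `F` is a
lift of `f` to the plane (so the derivative of `f` at `proj p` is the derivative of `F` at `p`). -/
structure IsSmoothEndo (f : Torus → Torus) (F : ℝ × ℝ → ℝ × ℝ) : Prop where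
  lift : ∀ p, proj (F p) = f (proj p)
  smooth : ∀ n : ℕ, ContDiff ℝ n F
  det_ne_zero : ∀ p, (fderiv ℝ F p).det ≠ 0
  not_injective : ¬ Function.Injective f
  preserving : MeasurePreserving f volume volume

/-- Some forward orbit is dense. -/
def IsTransitive (f : Torus → Torus) : Prop :=
  ∃ z, Dense (Set.range fun n : ℕ => f^[n] z)

/-- Non-uniform hyperbolicity of the torus map with lift `F`: at almost every point the two
Lyapunov exponents exist, the lower one is negative and the upper one is positive. -/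
def IsNUH (F : ℝ × ℝ → ℝ × ℝ) : Prop :=
  ∀ᵐ z ∂(volume : Measure Torus), ∀ p, proj p = z → ∃ a b : ℝ, a < 0 ∧ 0 < b ∧
    Tendsto (fun n : ℕ => Real.log (coNorm (fderiv ℝ (F^[n]) p)) / n) atTop (𝓝 a) ∧
    Tendsto (fun n : ℕ => Real.log (opNorm (fderiv ℝ (F^[n]) p)) / n) atTop (𝓝 b)

end Pool.Agent.MP_9eaa6a_an
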